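import Pool.Agent.H77.SH.Problem
import Pool.Agent.H77.SG.Heights

/-!
# The layout without degenerate segments

The layout of `Pool.Agent.H77.SG.Layout` with three changes: the obstacles are segments without
additional end points, the vertex of an instruction of kind `1` is on a full slot, and an instruction
of kind `1` has an obstacle in each of the slots where its wires end. With open obstacles the
conditions on the heights are weak inequalities.
-/

set_option autoImplicit false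

namespace Pool.Agent.H77.SH

open Pool.Agent.H79.Cx Pool.Agent.H78.NP Pool.Agent.H77.SG

/-- The segment of the vertex `v`. -/
def vSeg (o : Bool) (v : ℕ × ℕ × ℕ) : Seg :=
  if v.2.2 = 2 then zseg o (2 * v.1 + 1) (16 * v.2.1 + 2) (2 * v.1 + 2) (16 * v.2.1 + 4)
  else zseg o (2 * v.1) (16 * v.2.1) (2 * v.1) (16 * v.2.1 + 4)

/-- The obstacle of the ordinary edge `(T, i, j, s)`. -/
def pWall (o : Bool) (q : ℕ × ℕ × ℕ × Bool) : Seg :=
  if low q.1 q.2.2.2 = true then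
    zseg o (2 * q.1 + 1) (8 * (q.2.1 + q.2.2.1)) (2 * q.1 + 1) (8 * (q.2.1 + q.2.2.1) + 2)
  else zseg o (2 * q.1 + 1) (8 * (q.2.1 + q.2.2.1) + 2) (2 * q.1 + 1)
    (8 * (q.2.1 + q.2.2.1) + 4)

/-- The obstacle of the letter number `j` of the word of an instruction of kind `1`. -/
def cWall (o : Bool) (b : ℕ) (I : ℕ × ℕ × ℕ × List Bool) (j : ℕ) : Seg :=
  if I.2.2.2.getD j false = true then
    zseg o (2 * (4 * b + 4)) (16 * (I.2.1 + j)) (2 * (4 * b + 4)) (16 * (I.2.1 + j) + I.2.2.1)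
  else zseg o (2 * (4 * b + 4)) (16 * (I.2.1 + j) + I.2.2.1) (2 * (4 * b + 4))
    (16 * (I.2.1 + j) + 4)

/-- The obstacles of the block number `b`. -/
def bO (o : Bool) (b : ℕ) (S : List Bool) (I : ℕ × ℕ × ℕ × List Bool) : List Seg :=
  (bP b S I).map (pWall o) ++
    if I.1 = 6 then [zseg o (2 * (4 * b + 2)) (16 * (I.2.1 + 1) - 4) (2 * (4 * b + 2))
      (16 * (I.2.1 + 1))]
    else if I.1 = 1 then (List.range I.2.2.2.length).map (cWall o b I)
    else []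

/-- All vertices, with their segments. -/
def lV (o : Bool) (π : List (ℕ × ℕ × ℕ × List Bool)) : List ((ℕ × ℕ × ℕ) × Seg) :=
  (blocks 0 [] π).flatMap fun B => (bV B.1 B.2.1 B.2.2).map fun v => (v, vSeg o v)

/-- All obstacles. -/
def lO (o : Bool) (π : List (ℕ × ℕ × ℕ × List Bool)) : List Seg :=
  (blocks 0 [] π).flatMap fun B => bO o B.1 B.2.1 B.2.2

/-- The instance of a program. -/
def instOf (o : Bool) (π : List (ℕ × ℕ × ℕ × List Bool)) : Inst :=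
  mkInst (lV o π) (lE π) (lO o π)

/-- The weak condition given by the obstacle of an ordinary edge. -/
def passW (h : ℕ × ℕ × ℕ → ℝ) (q : ℕ × ℕ × ℕ × Bool) : Prop :=
  if low q.1 q.2.2.2 = true then 1 ≤ h (q.1, q.2.1, 0) + h (q.1 + 1, q.2.2.1, 0)
  else h (q.1, q.2.1, 0) + h (q.1 + 1, q.2.2.1, 0) ≤ 1

/-- The other conditions of the block number `b`. -/
def extraW (h : ℕ × ℕ × ℕ → ℝ) (b : ℕ) (I : ℕ × ℕ × ℕ × List Bool) : Prop :=
  if I.1 = 1 then ∀ j < I.2.2.2.length,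
    (I.2.2.2.getD j false = true → (I.2.2.1 : ℝ) / 4 ≤ h (4 * b + 4, I.2.1 + j, 0)) ∧
    (I.2.2.2.getD j false = false → h (4 * b + 4, I.2.1 + j, 0) ≤ (I.2.2.1 : ℝ) / 4)
  else if I.1 = 3 then
    2 * h (4 * b + 1, I.2.1 + 1, 0) < h (4 * b, I.2.1 + 1, 0) + h (4 * b + 2, I.2.1 + 1, 1) ∧
      h (4 * b + 2, I.2.1 + 1, 1) < h (4 * b + 2, I.2.1 + 1, 0)
  else if I.1 = 4 then
    2 * h (4 * b + 2, I.2.1 + 1, 0) < h (4 * b + 1, I.2.1 + 1, 0) + h (4 * b + 3, I.2.1 + 1, 1) ∧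
      h (4 * b + 3, I.2.1 + 1, 1) < h (4 * b + 3, I.2.1 + 1, 0)
  else if I.1 = 5 then
    h (4 * b, I.2.1 + 1, 0) + h (4 * b + 2, I.2.1 + 1, 1) < 2 * h (4 * b + 1, I.2.1 + 1, 0) ∧
      h (4 * b + 2, I.2.1 + 1, 0) < h (4 * b + 2, I.2.1 + 1, 1)
  else if I.1 = 6 then
    1 ≤ h (4 * b + 2, I.2.1 + 1, 2) * (2 - h (4 * b + 1, I.2.1, 0)) ∧
      h (4 * b + 2, I.2.1 + 1, 2) < h (4 * b + 2, I.2.1 + 1, 0) +
        (h (4 * b + 3, I.2.1 + 1, 1) - h (4 * b + 2, I.2.1 + 1, 0)) *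
          h (4 * b + 2, I.2.1 + 1, 2) ∧
      h (4 * b + 3, I.2.1 + 1, 1) < h (4 * b + 3, I.2.1 + 1, 0)
  else True

/-- The weak conditions of a block. -/
def blkW (h : ℕ × ℕ × ℕ → ℝ) (B : ℕ × List Bool × (ℕ × ℕ × ℕ × List Bool)) : Prop :=
  (∀ q ∈ bP B.1 B.2.1 B.2.2, passW h q) ∧ extraW h B.1 B.2.2

end Pool.Agent.H77.SH
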