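import Pool.Agent.H77.SG.GoodC
import Pool.Agent.H77.SH.Defs

/-!
# The layout without degenerate segments is good
-/

set_option autoImplicit false

namespace Pool.Agent.H77.SH

open Pool.Agent.H77.SG

theorem mem_lV {o : Bool} {π : List (ℕ × ℕ × ℕ × List Bool)} {x : (ℕ × ℕ × ℕ) × Seg} :
    x ∈ lV o π ↔ ∃ B ∈ blocks 0 [] π, ∃ v ∈ bV B.1 B.2.1 B.2.2, x = (v, vSeg o v) := by
  unfold lV
  rw [List.mem_flatMap]
  constructor
  · rintro ⟨B, hB, hx⟩
    rw [List.mem_map] at hx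
    obtain ⟨v, hv, rfl⟩ := hx
    exact ⟨B, hB, v, hv, rfl⟩
  · rintro ⟨B, hB, v, hv, rfl⟩
    exact ⟨B, hB, List.mem_map.2 ⟨v, hv, rfl⟩⟩

theorem names_eq (o : Bool) (π : List (ℕ × ℕ × ℕ × List Bool)) :
    (lV o π).map (fun x => x.1) = (SG.lV o π).map (fun x => x.1) := by
  have e : (lV o π).map (fun x => x.1) =
      (blocks 0 [] π).flatMap fun B => bV B.1 B.2.1 B.2.2 := by
    unfold lV
    rw [List.map_flatMap]
    congr 1
    funext B
    rw [List.map_map]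
    exact List.map_id _
  have e' : (SG.lV o π).map (fun x => x.1) =
      (blocks 0 [] π).flatMap fun B => bV B.1 B.2.1 B.2.2 := by
    unfold SG.lV
    rw [List.map_flatMap]
    congr 1
    funext B
    rw [List.map_map]
    exact List.map_id _
  rw [e, e']

theorem name_iff (o : Bool) (π : List (ℕ × ℕ × ℕ × List Bool)) (v : ℕ × ℕ × ℕ) :
    (∃ x ∈ lV o π, x.1 = v) ↔ ∃ x ∈ SG.lV o π, x.1 = v := by
  have h : v ∈ (lV o π).map (fun x => x.1) ↔ v ∈ (SG.lV o π).map (fun x => x.1) := by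
    rw [names_eq]
  rw [List.mem_map, List.mem_map] at h
  exact h

theorem good_of_WF (o : Bool) {π : List (ℕ × ℕ × ℕ × List Bool)} (hW : WF π []) :
    Good (lV o π) (lE π) := by
  have hG := SG.good_of_WF o hW
  refine ⟨?_, hG.edges, ?_, ?_, hG.right, hG.indeg, hG.fan⟩
  · rw [names_eq]
    exact hG.names
  · intro e he
    have h := hG.ends e he
    rw [← name_iff, ← name_iff] at h
    exact h
  · intro x hx
    obtain ⟨y, hy, hxy⟩ := (name_iff o π x.1).1 ⟨x, hx, rfl⟩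
    obtain ⟨e, he, h⟩ := hG.cover y hy
    rw [hxy] at h
    exact ⟨e, he, h⟩

theorem sub_open {x y x' y' : ℤ} {z : ℝ × ℝ} (hz : z ∈ (zseg true x y x' y').pts) :
    ∃ s : ℝ, 0 < s ∧ s < 1 ∧ z.1 = x + s * (x' - x) ∧ z.2 = y + s * (y' - y) := by
  have h : z ∈ openSegment ℝ (((x : ℝ), (y : ℝ)) : ℝ × ℝ) (((x' : ℝ), (y' : ℝ)) : ℝ × ℝ) := by
    rw [← goodc_toR, ← goodc_toR]
    unfold Seg.pts at hz
    rw [if_pos (show (zseg true x y x' y').isOpen = true from rfl)] at hz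
    exact hz
  obtain ⟨a, b, ha, hb, hab, rfl⟩ := h
  refine ⟨b, hb, by linarith, ?_, ?_⟩
  · show a * (x : ℝ) + b * (x' : ℝ) = _
    have : a = 1 - b := by linarith
    rw [this]
    ring
  · show a * (y : ℝ) + b * (y' : ℝ) = _
    have : a = 1 - b := by linarith
    rw [this]
    ring

theorem sub_both (o : Bool) {x y x' y' : ℤ} {z : ℝ × ℝ} (hz : z ∈ (zseg o x y x' y').pts) :
    ∃ s : ℝ, 0 ≤ s ∧ s ≤ 1 ∧ (o = true → 0 < s ∧ s < 1) ∧ z.1 = x + s * (x' - x) ∧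
      z.2 = y + s * (y' - y) := by
  cases o
  · obtain ⟨s, h0, h1, h2, h3⟩ := goodc_sub hz
    exact ⟨s, h0, h1, fun h => absurd h (by decide), h2, h3⟩
  · obtain ⟨s, h0, h1, h2, h3⟩ := sub_open hz
    exact ⟨s, h0.le, h1.le, fun _ => ⟨h0, h1⟩, h2, h3⟩

/-- The positions on the segment of a vertex. -/
theorem vSeg_pts (o : Bool) (v : ℕ × ℕ × ℕ) {z : ℝ × ℝ} (hz : z ∈ (vSeg o v).pts) :
    ∃ u : ℝ, 0 ≤ u ∧ u ≤ 1 ∧ (o = true → 0 < u ∧ u < 1) ∧
      (v.2.2 = 2 → 1 / 2 ≤ u ∧ z = (2 * (v.1 : ℝ) + 2 * u, 16 * (v.2.1 : ℝ) + 4 * u)) ∧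
      (v.2.2 ≠ 2 → z = (2 * (v.1 : ℝ), 16 * (v.2.1 : ℝ) + 4 * u)) := by
  unfold vSeg at hz
  split_ifs at hz with h2
  · obtain ⟨s, h0, h1, ho, hz1, hz2⟩ := sub_both o hz
    refine ⟨1 / 2 + s / 2, by linarith, by linarith,
      fun h => ⟨by linarith [(ho h).1], by linarith [(ho h).2]⟩, fun _ => ⟨by linarith, ?_⟩,
      fun h => absurd h2 h⟩
    apply Prod.ext
    · rw [hz1]
      push_cast
      ring
    · rw [hz2]
      push_cast
      ring
  · obtain ⟨s, h0, h1, ho, hz1, hz2⟩ := sub_both o hz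
    refine ⟨s, h0, h1, ho, fun h => absurd h h2, fun _ => ?_⟩
    apply Prod.ext
    · rw [hz1]
      push_cast
      ring
    · rw [hz2]
      push_cast
      ring

theorem lV_segs (o : Bool) (π : List (ℕ × ℕ × ℕ × List Bool)) : SegsOK (lV o π) := by
  intro x hx z hz
  obtain ⟨B, hB, v, hv, rfl⟩ := mem_lV.1 hx
  obtain ⟨u, h0, h1, -, h2, h3⟩ := vSeg_pts o v hz
  exact ⟨u, h0, h1, h2, h3⟩

/-- The position of a vertex on its segment. -/
theorem onSeg_of (o : Bool) {h : ℕ × ℕ × ℕ → ℝ} (v : ℕ × ℕ × ℕ) (h01 : 0 < h v ∧ h v < 1)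
    (h2 : v.2.2 = 2 → 1 / 2 < h v) : ptOf h v ∈ (vSeg o v).pts := by
  unfold vSeg ptOf
  split_ifs with hv
  · have h3 := h2 hv
    refine goodc_sup o (s := 2 * h v - 1) (by linarith) (by linarith [h01.2]) ?_ ?_
    · push_cast
      ring
    · push_cast
      ring
  · refine goodc_sup o (s := h v) h01.1 h01.2 ?_ ?_
    · push_cast
      ring
    · push_cast
      ring

/-! ### Open, closed and proper segments -/

theorem vSeg_open (o : Bool) (v : ℕ × ℕ × ℕ) : (vSeg o v).isOpen = o := by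
  unfold vSeg
  split_ifs <;> rfl

theorem pWall_open (o : Bool) (q : ℕ × ℕ × ℕ × Bool) : (pWall o q).isOpen = o := by
  unfold pWall
  split_ifs <;> rfl

theorem cWall_open (o : Bool) (b : ℕ) (I : ℕ × ℕ × ℕ × List Bool) (j : ℕ) :
    (cWall o b I j).isOpen = o := by
  unfold cWall
  split_ifs <;> rfl

theorem zseg_ne_x (o : Bool) {x y x' y' : ℤ} (h : x ≠ x') :
    (zseg o x y x' y').a ≠ (zseg o x y x' y').b := by
  intro he
  have h1 : (x : ℚ) = (x' : ℚ) := congrArg Prod.fst he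
  exact h (by exact_mod_cast h1)

theorem zseg_ne_y (o : Bool) {x y x' y' : ℤ} (h : y ≠ y') :
    (zseg o x y x' y').a ≠ (zseg o x y x' y').b := by
  intro he
  have h1 : (y : ℚ) = (y' : ℚ) := congrArg Prod.snd he
  exact h (by exact_mod_cast h1)

theorem vSeg_ne (o : Bool) (v : ℕ × ℕ × ℕ) : (vSeg o v).a ≠ (vSeg o v).b := by
  unfold vSeg
  split_ifs
  · exact zseg_ne_x o (by omega)
  · exact zseg_ne_y o (by omega)

theorem pWall_ne (o : Bool) (q : ℕ × ℕ × ℕ × Bool) : (pWall o q).a ≠ (pWall o q).b := by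
  unfold pWall
  split_ifs
  · exact zseg_ne_y o (by omega)
  · exact zseg_ne_y o (by omega)

theorem cWall_ne (o : Bool) (b : ℕ) (I : ℕ × ℕ × ℕ × List Bool) (j : ℕ) (h1 : 1 ≤ I.2.2.1)
    (h3 : I.2.2.1 ≤ 3) : (cWall o b I j).a ≠ (cWall o b I j).b := by
  unfold cWall
  split_ifs
  · exact zseg_ne_y o (by omega)
  · exact zseg_ne_y o (by omega)

theorem mem_bO {o : Bool} {b : ℕ} {S : List Bool} {I : ℕ × ℕ × ℕ × List Bool} {s : Seg} :
    s ∈ bO o b S I ↔ (∃ q ∈ bP b S I, s = pWall o q) ∨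
      (I.1 = 6 ∧ s = zseg o (2 * (4 * b + 2)) (16 * (I.2.1 + 1) - 4) (2 * (4 * b + 2))
        (16 * (I.2.1 + 1))) ∨
      (I.1 = 1 ∧ ∃ j < I.2.2.2.length, s = cWall o b I j) := by
  unfold bO
  rw [List.mem_append, List.mem_map]
  have h1 : (∃ a ∈ bP b S I, pWall o a = s) ↔ ∃ q ∈ bP b S I, s = pWall o q := by
    constructor
    · rintro ⟨a, ha, rfl⟩
      exact ⟨a, ha, rfl⟩
    · rintro ⟨a, ha, rfl⟩
      exact ⟨a, ha, rfl⟩
  rw [h1]
  split_ifs with h6 h2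
  · rw [List.mem_singleton]
    constructor
    · rintro (h | h)
      · exact Or.inl h
      · exact Or.inr (Or.inl ⟨h6, h⟩)
    · rintro (h | ⟨_, h⟩ | ⟨h, _⟩)
      · exact Or.inl h
      · exact Or.inr h
      · omega
  · rw [List.mem_map]
    constructor
    · rintro (h | ⟨j, hj, h⟩)
      · exact Or.inl h
      · exact Or.inr (Or.inr ⟨h2, j, List.mem_range.1 hj, h.symm⟩)
    · rintro (h | ⟨h, _⟩ | ⟨_, j, hj, h⟩)
      · exact Or.inl h
      · omega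
      · exact Or.inr ⟨j, List.mem_range.2 hj, h.symm⟩
  · constructor
    · rintro (h | h)
      · exact Or.inl h
      · simp at h
    · rintro (h | ⟨h, _⟩ | ⟨h, _⟩)
      · exact Or.inl h
      · exact absurd h h6
      · exact absurd h h2

theorem mem_lO {o : Bool} {π : List (ℕ × ℕ × ℕ × List Bool)} {s : Seg} :
    s ∈ lO o π ↔ ∃ B ∈ blocks 0 [] π, s ∈ bO o B.1 B.2.1 B.2.2 := by
  unfold lO
  rw [List.mem_flatMap]

theorem lO_open {o : Bool} {π : List (ℕ × ℕ × ℕ × List Bool)} {s : Seg} (hs : s ∈ lO o π) :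
    s.isOpen = o := by
  obtain ⟨B, -, hs⟩ := mem_lO.1 hs
  rcases mem_bO.1 hs with ⟨q, -, rfl⟩ | ⟨-, rfl⟩ | ⟨-, j, -, rfl⟩
  · exact pWall_open o q
  · rfl
  · exact cWall_open o _ _ j

theorem lO_ne {o : Bool} {π : List (ℕ × ℕ × ℕ × List Bool)} (hW : WF π []) {s : Seg}
    (hs : s ∈ lO o π) : s.a ≠ s.b := by
  obtain ⟨B, hB, hs⟩ := mem_lO.1 hs
  rcases mem_bO.1 hs with ⟨q, -, rfl⟩ | ⟨-, rfl⟩ | ⟨h1, j, -, rfl⟩
  · exact pWall_ne o q
  · exact zseg_ne_y o (by omega)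
  · have hc := goodc_const (blocks_wf hW B hB) h1
    exact cWall_ne o _ _ j hc.1 hc.2

theorem verts_seg {o : Bool} {π : List (ℕ × ℕ × ℕ × List Bool)} {v : ℕ} {s : Seg}
    {r : List ℕ} (h : (instOf o π).Has v s r) : ∃ u : ℕ × ℕ × ℕ, s = vSeg o u := by
  have h' : (v, s, r) ∈ (instOf o π).verts := h
  unfold instOf mkInst at h'
  simp only [List.mem_map] at h'
  obtain ⟨x, hx, he⟩ := h'
  obtain ⟨B, hB, w, hw, rfl⟩ := mem_lV.1 hx
  exact ⟨w, (congrArg (fun y => y.2.1) he).symm⟩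

theorem instOf_open (π : List (ℕ × ℕ × ℕ × List Bool)) : (instOf true π).AllOpen := by
  refine ⟨fun v s r h => ?_, fun s hs => lO_open (π := π) hs⟩
  obtain ⟨u, rfl⟩ := verts_seg h
  exact vSeg_open _ _

theorem instOf_closed (π : List (ℕ × ℕ × ℕ × List Bool)) : (instOf false π).AllClosed := by
  refine ⟨fun v s r h => ?_, fun s hs => lO_open (π := π) hs⟩
  obtain ⟨u, rfl⟩ := verts_seg h
  exact vSeg_open _ _

theorem instOf_proper (o : Bool) {π : List (ℕ × ℕ × ℕ × List Bool)} (hW : WF π []) :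
    (instOf o π).Proper := by
  refine ⟨fun v s r h => ?_, fun s hs => lO_ne (o := o) hW hs⟩
  obtain ⟨u, rfl⟩ := verts_seg h
  exact vSeg_ne _ _

end Pool.Agent.H77.SH
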