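import Pool.Agent.H77.SG.GD
import Pool.Agent.H77.SH.Good

/-!
# From heights to drawings

The heights of the first layout (with the value of a constant exactly at its source) give a drawing
for the second layout.
-/

set_option autoImplicit false

namespace Pool.Agent.H77.SH

open Pool.Agent.H77.SG

theorem zseg_mem_wall (o : Bool) (x y x' y' : ℤ) : zseg o x y x' y' ∈ wallSeg o x y x' y' := by
  unfold wallSeg
  cases o
  · rw [if_neg (by decide)]
    exact List.mem_singleton.2 rfl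
  · rw [if_pos rfl]
    exact List.mem_cons_self

theorem pWall_mem (o : Bool) (q : ℕ × ℕ × ℕ × Bool) : pWall o q ∈ SG.pWall o q := by
  unfold pWall SG.pWall
  split_ifs
  · exact zseg_mem_wall o _ _ _ _
  · exact zseg_mem_wall o _ _ _ _

/-- The values of the wires of a constant. -/
theorem const_val {b : ℕ} {S : List Bool} {I : ℕ × ℕ × ℕ × List Bool} (hI : WFI I S)
    (hk : I.1 = 1) {h : ℕ × ℕ × ℕ → ℝ} (hB : blkOK h (b, S, I)) {j : ℕ}
    (hj : j < I.2.2.2.length) :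
    (I.2.2.2.getD j false = true → (I.2.2.1 : ℝ) / 4 < h (4 * b + 4, I.2.1 + j, 0)) ∧
      (I.2.2.2.getD j false = false → h (4 * b + 4, I.2.1 + j, 0) < (I.2.2.1 : ℝ) / 4) := by
  have h1 : h (4 * b + 3, I.2.1, 0) = 1 - (I.2.2.1 : ℝ) / 4 := by
    have h2 := hB.2
    unfold extraOK at h2
    rw [if_pos hk] at h2
    exact h2
  have h2 : passOK h (4 * b + 3, I.2.1, I.2.1 + j, I.2.2.2.getD j false) := by
    refine hB.1 _ (mem_bP.2 (Or.inl ⟨?_, (WFI_pos hI).1, j, hj, rfl⟩))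
    change I.1 ≤ 1
    omega
  have hodd : (4 * b + 3) % 2 = 1 := by omega
  unfold passOK low at h2
  simp only [hodd] at h2
  constructor
  · intro hs
    rw [hs] at h2
    simp at h2
    rw [h1] at h2
    linarith
  · intro hs
    rw [hs] at h2
    simp at h2
    rw [h1] at h2
    linarith

theorem cWall_disj (o : Bool) {π : List (ℕ × ℕ × ℕ × List Bool)} (hW : WF π [])
    {h : ℕ × ℕ × ℕ → ℝ} (h01 : ∀ v, 0 < h v ∧ h v < 1) (hB : ∀ B ∈ blocks 0 [] π, blkOK h B)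
    {B : ℕ × List Bool × (ℕ × ℕ × ℕ × List Bool)} (hBm : B ∈ blocks 0 [] π)
    (hk : B.2.2.1 = 1) {j : ℕ} (hj : j < B.2.2.2.2.2.length)
    {e : (ℕ × ℕ × ℕ) × (ℕ × ℕ × ℕ)} (he : e ∈ lE π) :
    Disjoint (segment ℝ (ptOf h e.1) (ptOf h e.2)) (cWall o B.1 B.2.2 j).pts := by
  obtain ⟨b, S, I⟩ := B
  simp only at hk hj ⊢
  have hI : WFI I S := blocks_wf hW _ hBm
  have hc := goodc_const hI hk
  have hc1 : (1 : ℝ) ≤ (I.2.2.1 : ℝ) := by exact_mod_cast hc.1
  have hc3 : (I.2.2.1 : ℝ) ≤ 3 := by exact_mod_cast hc.2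
  have hv := const_val hI hk (hB _ hBm) hj
  rw [Set.disjoint_left]
  intro z hz hz'
  -- the position of a point of the obstacle
  have hw : z.1 = 8 * (b : ℝ) + 8 ∧ 16 * ((I.2.1 : ℝ) + j) ≤ z.2 ∧
      z.2 ≤ 16 * ((I.2.1 : ℝ) + j) + 4 ∧
      (I.2.2.2.getD j false = true → z.2 ≤ 16 * ((I.2.1 : ℝ) + j) + I.2.2.1) ∧
      (I.2.2.2.getD j false = false → 16 * ((I.2.1 : ℝ) + j) + I.2.2.1 ≤ z.2) := by
    unfold cWall at hz'
    split_ifs at hz' with hs
    · obtain ⟨s, h0, h1, hz1, hz2⟩ := goodc_sub hz'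
      push_cast at hz1 hz2
      have hsc : s * (I.2.2.1 : ℝ) ≤ 1 * (I.2.2.1 : ℝ) :=
        mul_le_mul_of_nonneg_right h1 (by linarith)
      have hsc0 : 0 ≤ s * (I.2.2.1 : ℝ) := mul_nonneg h0 (by linarith)
      refine ⟨by rw [hz1]; ring, ?_, ?_, fun _ => ?_, fun h => ?_⟩
      · rw [hz2]; linarith
      · rw [hz2]; linarith
      · rw [hz2]; linarith
      · rw [hs] at h
        exact absurd h (by decide)
    · obtain ⟨s, h0, h1, hz1, hz2⟩ := goodc_sub hz'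
      push_cast at hz1 hz2
      have hsc : s * (4 - (I.2.2.1 : ℝ)) ≤ 1 * (4 - (I.2.2.1 : ℝ)) :=
        mul_le_mul_of_nonneg_right h1 (by linarith)
      have hsc0 : 0 ≤ s * (4 - (I.2.2.1 : ℝ)) := mul_nonneg h0 (by linarith)
      have hz2' : z.2 = 16 * ((I.2.1 : ℝ) + j) + I.2.2.1 + s * (4 - (I.2.2.1 : ℝ)) := by
        rw [hz2]
        ring
      refine ⟨by rw [hz1]; ring, ?_, ?_, fun h => absurd h hs, fun _ => ?_⟩
      · rw [hz2']; linarith
      · rw [hz2']; linarith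
      · rw [hz2']; linarith
  obtain ⟨w1, w2, w3, w4, w5⟩ := hw
  -- a slot on the line number `4 b + 4`
  have key : ∀ k : ℕ, z = ptOf h (4 * b + 4, k, 0) → False := by
    intro k hzk
    have g := h01 (4 * b + 4, k, 0)
    have hz2 : z.2 = 16 * (k : ℝ) + 4 * h (4 * b + 4, k, 0) := by
      rw [hzk]
      simp [ptOf]
    have hkj : k = I.2.1 + j := by
      have h1 : (k : ℝ) < ((I.2.1 + j : ℕ) : ℝ) + 1 := by
        push_cast
        linarith [g.1]
      have h2 : ((I.2.1 + j : ℕ) : ℝ) < (k : ℝ) + 1 := by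
        push_cast
        linarith [g.2]
      have h3 : k < I.2.1 + j + 1 := by exact_mod_cast h1
      have h4 : I.2.1 + j < k + 1 := by exact_mod_cast h2
      omega
    rw [hkj] at hz2
    push_cast at hz2
    cases hs : I.2.2.2.getD j false
    · have h1 := hv.2 hs
      have h2 := w5 hs
      linarith
    · have h1 := hv.1 hs
      have h2 := w4 hs
      linarith
  obtain ⟨B', hBm', he⟩ := gD_mem_lE.1 he
  obtain ⟨h1, h2, h3, h4⟩ := bE_x (blocks_wf hW B' hBm') h01 he hz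
  have h5 : B'.1 = b ∨ B'.1 = b + 1 := by
    rw [w1] at h1 h2
    have h6 : (B'.1 : ℝ) ≤ (b : ℝ) + 1 := by linarith
    have h7 : (b : ℝ) ≤ (B'.1 : ℝ) := by linarith
    have h8 : B'.1 ≤ b + 1 := by exact_mod_cast h6
    have h9 : b ≤ B'.1 := by exact_mod_cast h7
    omega
  rcases h5 with h5 | h5
  · obtain ⟨k, hk, hzk⟩ := h4 (by rw [w1, h5])
    refine key k ?_
    rw [hzk, hk, h5]
    rfl
  · obtain ⟨k, hk, hzk⟩ := h3 (by rw [w1, h5]; push_cast; ring)
    refine key k ?_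
    rw [hzk, hk, h5]
    rfl

theorem heights_drawn (o : Bool) {π : List (ℕ × ℕ × ℕ × List Bool)} (hW : WF π [])
    {h : ℕ × ℕ × ℕ → ℝ} (h01 : ∀ v, 0 < h v ∧ h v < 1) (hB : ∀ B ∈ blocks 0 [] π, blkOK h B) :
    Drawn (lV o π) (lE π) (lO o π) (ptOf h) := by
  have hD := SG.heights_drawn o hW h01 hB
  refine ⟨?_, ?_, hD.edge, ?_⟩
  · intro x hx
    obtain ⟨B, hBm, v, hv, rfl⟩ := mem_lV.1 hx
    exact onSeg_of o v (h01 v) fun h2 => half_lt (blocks_wf hW B hBm) h01 (hB B hBm) hv h2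
  · intro x hx y hy hxy
    obtain ⟨x', hx', hxx⟩ := (name_iff o π x.1).1 ⟨x, hx, rfl⟩
    obtain ⟨y', hy', hyy⟩ := (name_iff o π y.1).1 ⟨y, hy, rfl⟩
    have h1 := hD.inj x' hx' y' hy' (by rw [hxx, hyy]; exact hxy)
    rw [hxx, hyy] at h1
    exact h1
  · intro e he s hs
    obtain ⟨B, hBm, hs⟩ := mem_lO.1 hs
    rcases mem_bO.1 hs with ⟨q, hq, rfl⟩ | ⟨h6, rfl⟩ | ⟨h1, j, hj, rfl⟩
    · refine hD.obst e he _ (gD_mem_lO.2 ⟨B, hBm, ?_⟩)
      unfold SG.bO
      rw [List.mem_append, List.mem_flatMap]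
      exact Or.inl ⟨q, hq, pWall_mem o q⟩
    · refine hD.obst e he _ (gD_mem_lO.2 ⟨B, hBm, ?_⟩)
      unfold SG.bO
      rw [List.mem_append, if_pos h6]
      exact Or.inr (zseg_mem_wall o _ _ _ _)
    · exact cWall_disj o hW h01 hB hBm h1 hj he

end Pool.Agent.H77.SH
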