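import Pool.Agent.H77.SG.PJ
import Pool.Agent.H77.SH.Defs

/-!
# The instance without degenerate segments is computable in polynomial time
-/

set_option autoImplicit false

namespace Pool.Agent.H77.SH

open Pool.Agent.H79.Cx Pool.Agent.H77.SG

/-- The data of the segment of a vertex. -/
def pjV (o : Bool) (v : ℕ × ℕ × ℕ) : ((ℤ × ℤ) × ℤ × ℤ) × ((ℤ × ℤ) × ℤ × ℤ) × Bool :=
  if v.2.2 = 2 then pjZ o (2 * v.1 + 1) (16 * v.2.1 + 2) (2 * v.1 + 2) (16 * v.2.1 + 4)
  else pjZ o (2 * v.1) (16 * v.2.1) (2 * v.1) (16 * v.2.1 + 4)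

theorem pj_vSeg (o : Bool) (v : ℕ × ℕ × ℕ) : repSeg (vSeg o v) = pjV o v := by
  unfold vSeg pjV
  split_ifs <;> exact pj_zseg _ _ _ _ _

@[fun_prop]
theorem pj_pt_V {α : Type} [Enc α] (o : Bool) {v : α → ℕ × ℕ × ℕ} (hv : PT v) :
    PT (fun a => pjV o (v a)) := by
  unfold pjV
  fun_prop

/-- The data of the obstacle of an ordinary edge. -/
def pjP (o : Bool) (q : ℕ × ℕ × ℕ × Bool) : ((ℤ × ℤ) × ℤ × ℤ) × ((ℤ × ℤ) × ℤ × ℤ) × Bool :=
  if low q.1 q.2.2.2 = true then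
    pjZ o (2 * q.1 + 1) (8 * (q.2.1 + q.2.2.1)) (2 * q.1 + 1) (8 * (q.2.1 + q.2.2.1) + 2)
  else pjZ o (2 * q.1 + 1) (8 * (q.2.1 + q.2.2.1) + 2) (2 * q.1 + 1)
    (8 * (q.2.1 + q.2.2.1) + 4)

theorem pj_pWall (o : Bool) (q : ℕ × ℕ × ℕ × Bool) : repSeg (pWall o q) = pjP o q := by
  unfold pWall pjP
  split_ifs <;> exact pj_zseg _ _ _ _ _

@[fun_prop]
theorem pj_pt_P {α : Type} [Enc α] (o : Bool) {q : α → ℕ × ℕ × ℕ × Bool} (hq : PT q) :
    PT (fun a => pjP o (q a)) := by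
  unfold pjP
  have h1 : PT (fun a => low (q a).1 (q a).2.2.2) := pj_pt_low (by fun_prop) (by fun_prop)
  refine PT.ite' (PT.dTrue h1) ?_ ?_
  · fun_prop
  · fun_prop

/-- The data of the obstacle of a letter. -/
def pjC (o : Bool) (b : ℕ) (I : ℕ × ℕ × ℕ × List Bool) (j : ℕ) :
    ((ℤ × ℤ) × ℤ × ℤ) × ((ℤ × ℤ) × ℤ × ℤ) × Bool :=
  if I.2.2.2.getD j false = true then
    pjZ o (2 * (4 * b + 4)) (16 * (I.2.1 + j)) (2 * (4 * b + 4)) (16 * (I.2.1 + j) + I.2.2.1)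
  else pjZ o (2 * (4 * b + 4)) (16 * (I.2.1 + j) + I.2.2.1) (2 * (4 * b + 4))
    (16 * (I.2.1 + j) + 4)

theorem pj_cWall (o : Bool) (b : ℕ) (I : ℕ × ℕ × ℕ × List Bool) (j : ℕ) :
    repSeg (cWall o b I j) = pjC o b I j := by
  unfold cWall pjC
  split_ifs <;> exact pj_zseg _ _ _ _ _

@[fun_prop]
theorem pj_pt_C {α : Type} [Enc α] (o : Bool) {b : α → ℕ} {I : α → ℕ × ℕ × ℕ × List Bool}
    {j : α → ℕ} (hb : PT b) (hI : PT I) (hj : PT j) : PT (fun a => pjC o (b a) (I a) (j a)) := by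
  unfold pjC
  fun_prop

/-- The data of the obstacles of a block. -/
def pjO (o : Bool) (b : ℕ) (S : List Bool) (I : ℕ × ℕ × ℕ × List Bool) :
    List (((ℤ × ℤ) × ℤ × ℤ) × ((ℤ × ℤ) × ℤ × ℤ) × Bool) :=
  (bP b S I).map (pjP o) ++
    if I.1 = 6 then [pjZ o (2 * (4 * b + 2)) (16 * (I.2.1 + 1) - 4) (2 * (4 * b + 2))
      (16 * (I.2.1 + 1))]
    else if I.1 = 1 then (List.range I.2.2.2.length).map (pjC o b I)
    else []

theorem pj_bO (o : Bool) (b : ℕ) (S : List Bool) (I : ℕ × ℕ × ℕ × List Bool) :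
    (bO o b S I).map repSeg = pjO o b S I := by
  unfold bO pjO
  rw [List.map_append, List.map_map]
  congr 1
  · refine List.map_congr_left fun q _ => ?_
    exact pj_pWall o q
  · split_ifs
    · rw [List.map_cons, List.map_nil, pj_zseg]
    · rw [List.map_map]
      refine List.map_congr_left fun j _ => ?_
      exact pj_cWall o b I j
    · rfl

theorem pj_pt_O {α : Type} [Enc α] (o : Bool) {b : α → ℕ} {S : α → List Bool}
    {I : α → ℕ × ℕ × ℕ × List Bool} (hb : PT b) (hS : PT S) (hI : PT I) :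
    PT (fun a => pjO o (b a) (S a) (I a)) := by
  unfold pjO
  refine PT.append ?_ ?_
  · exact PT.map' (f := fun _ q => pjP o q) (by fun_prop) (PT_bP hb hS hI)
  · refine PT.ite' ?_ (by fun_prop) (PT.ite' ?_ ?_ (by fun_prop))
    · exact PT.natEq (by fun_prop) (by fun_prop)
    · exact PT.natEq (by fun_prop) (by fun_prop)
    · exact PT.map' (f := fun a j => pjC o (b a) (I a) j) (by fun_prop) (by fun_prop)

theorem pj_repInst (o : Bool) (π : List (ℕ × ℕ × ℕ × List Bool)) : repInst (instOf o π) =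
    (((blocks 0 [] π).flatMap fun B => (bV B.1 B.2.1 B.2.2).map fun v =>
        (v, pjV o v)).map fun x => (nm x.1, x.2, pjN (lE π) x.1),
      (blocks 0 [] π).flatMap fun B => pjO o B.1 B.2.1 B.2.2) := by
  unfold repInst instOf mkInst
  simp only
  congr 1
  · unfold lV
    simp only [List.map_map, List.map_flatMap]
    refine List.flatMap_congr fun B _ => ?_
    refine List.map_congr_left fun v _ => ?_
    simp only [Function.comp, pj_vSeg]
    rfl
  · unfold lO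
    simp only [List.map_flatMap, pj_bO]

theorem PT_instOf (o : Bool) :
    PT (fun π : List (ℕ × ℕ × ℕ × List Bool) => repInst (instOf o π)) := by
  refine PT.congr ?_ fun π => (pj_repInst o π).symm
  refine PT.pair ?_ ?_
  · refine PT.map' (f := fun (π : List (ℕ × ℕ × ℕ × List Bool))
      (x : (ℕ × ℕ × ℕ) × (((ℤ × ℤ) × ℤ × ℤ) × ((ℤ × ℤ) × ℤ × ℤ) × Bool)) =>
      (nm x.1, x.2, pjN (lE π) x.1)) ?_ ?_
    · refine PT.pair (by fun_prop) (PT.pair (by fun_prop) ?_)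
      exact pj_pt_N (PT.comp pj_pt_lE (by fun_prop)) (by fun_prop)
    · refine PT.flatMap (f := fun _ B => (bV B.1 B.2.1 B.2.2).map fun v =>
        (v, pjV o v)) ?_ PT_blocks
      refine PT.map' (f := fun (_ : List (ℕ × ℕ × ℕ × List Bool) ×
        (ℕ × List Bool × (ℕ × ℕ × ℕ × List Bool))) v => (v, pjV o v)) ?_ ?_
      · fun_prop
      · exact PT_bV (by fun_prop) (by fun_prop) (by fun_prop)
  · refine PT.flatMap (f := fun _ B => pjO o B.1 B.2.1 B.2.2) ?_ PT_blocks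
    exact pj_pt_O o (by fun_prop) (by fun_prop) (by fun_prop)

end Pool.Agent.H77.SH
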