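import Pool.Agent.H77.SG.GD
import Pool.Agent.H77.SH.Good

/-!
# From drawings to heights
-/

set_option autoImplicit false

namespace Pool.Agent.H77.SH

open Pool.Agent.H77.SG

/-- A vertical segment contains the points between its end points. -/
theorem mem_zseg (o : Bool) {x y y' : ℤ} {z : ℝ × ℝ} (hz : z.1 = x) (h1 : (y : ℝ) < z.2)
    (h2 : z.2 < (y' : ℝ)) : z ∈ (zseg o x y x y').pts := by
  have h3 : (0 : ℝ) < (y' : ℝ) - y := by linarith
  refine goodc_sup o (s := (z.2 - y) / (y' - y)) (div_pos (by linarith) h3) ?_ ?_ ?_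
  · rw [div_lt_one h3]
    linarith
  · rw [hz]
    ring
  · rw [div_mul_cancel₀ _ h3.ne']
    ring

theorem mem_zseg_closed {x y y' : ℤ} {z : ℝ × ℝ} (hz : z.1 = x) (h1 : (y : ℝ) ≤ z.2)
    (h2 : z.2 ≤ (y' : ℝ)) : z ∈ (zseg false x y x y').pts := by
  unfold Seg.pts
  rw [if_neg (show ¬ (zseg false x y x y').isOpen = true from Bool.false_ne_true)]
  change z ∈ segment ℝ (toR (zpt x y)) (toR (zpt x y'))
  rw [goodc_toR, goodc_toR, mem_vert (le_trans h1 h2)]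
  exact ⟨hz, h1, h2⟩

theorem not_mem_zseg (o : Bool) {x y y' : ℤ} {z : ℝ × ℝ} (hz : z.1 = x)
    (h : z ∉ (zseg o x y x y').pts) :
    (z.2 ≤ (y : ℝ) ∨ (y' : ℝ) ≤ z.2) ∧ (o = false → z.2 < (y : ℝ) ∨ (y' : ℝ) < z.2) := by
  constructor
  · by_contra hcon
    push Not at hcon
    exact h (mem_zseg o hz hcon.1 hcon.2)
  · rintro rfl
    by_contra hcon
    push Not at hcon
    exact h (mem_zseg_closed hz hcon.1 hcon.2)

theorem pass_soundW (o : Bool) (q : ℕ × ℕ × ℕ × Bool) {h : ℕ × ℕ × ℕ → ℝ}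
    (h01 : ∀ v, 0 ≤ h v ∧ h v ≤ 1) (ho : o = true → ∀ v, 0 < h v ∧ h v < 1)
    (hd : Disjoint (segment ℝ (ptOf h (q.1, q.2.1, 0)) (ptOf h (q.1 + 1, q.2.2.1, 0)))
      (pWall o q).pts) : passW h q ∧ (o = false → passOK h q) := by
  obtain ⟨T, i, j, s⟩ := q
  simp only at hd
  have a1 := h01 (T, i, 0)
  have a2 := h01 (T + 1, j, 0)
  have b1 := fun ht => ho ht (T, i, 0)
  have b2 := fun ht => ho ht (T + 1, j, 0)
  rw [Set.disjoint_left] at hd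
  have hz := (geo_mid h T i j (2 * (T : ℝ) + 1,
    8 * ((i : ℝ) + j) + 2 * (h (T, i, 0) + h (T + 1, j, 0))) rfl).2 rfl
  have hn := hd hz
  unfold pWall at hn
  unfold passW passOK
  simp only at hn ⊢
  by_cases hl : low T s = true
  · rw [if_pos hl] at hn ⊢
    rw [if_pos hl]
    obtain ⟨c1, c2⟩ := not_mem_zseg o (by push_cast; rfl) hn
    push_cast at c1 c2
    cases o
    · have c3 := c2 rfl
      have c4 : 1 < h (T, i, 0) + h (T + 1, j, 0) := by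
        rcases c3 with c3 | c3
        · linarith [a1.1, a2.1]
        · linarith
      exact ⟨c4.le, fun _ => c4⟩
    · refine ⟨?_, fun h => absurd h (by decide)⟩
      rcases c1 with c1 | c1
      · linarith [(b1 rfl).1, (b2 rfl).1]
      · linarith
  · rw [if_neg hl] at hn ⊢
    rw [if_neg hl]
    obtain ⟨c1, c2⟩ := not_mem_zseg o (by push_cast; rfl) hn
    push_cast at c1 c2
    cases o
    · have c3 := c2 rfl
      have c4 : h (T, i, 0) + h (T + 1, j, 0) < 1 := by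
        rcases c3 with c3 | c3
        · linarith
        · linarith [a1.2, a2.2]
      exact ⟨c4.le, fun _ => c4⟩
    · refine ⟨?_, fun h => absurd h (by decide)⟩
      rcases c1 with c1 | c1
      · linarith
      · linarith [(b1 rfl).2, (b2 rfl).2]

/-- The value of a wire of a constant. -/
theorem const_sound (o : Bool) (b : ℕ) (I : ℕ × ℕ × ℕ × List Bool) (j : ℕ)
    {h : ℕ × ℕ × ℕ → ℝ} (h01 : ∀ v, 0 ≤ h v ∧ h v ≤ 1)
    (ho : o = true → ∀ v, 0 < h v ∧ h v < 1)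
    (hn : ptOf h (4 * b + 4, I.2.1 + j, 0) ∉ (cWall o b I j).pts) :
    (I.2.2.2.getD j false = true → (I.2.2.1 : ℝ) / 4 ≤ h (4 * b + 4, I.2.1 + j, 0)) ∧
      (I.2.2.2.getD j false = false → h (4 * b + 4, I.2.1 + j, 0) ≤ (I.2.2.1 : ℝ) / 4) := by
  have a1 := h01 (4 * b + 4, I.2.1 + j, 0)
  have b1 := fun ht => ho ht (4 * b + 4, I.2.1 + j, 0)
  have hx : (ptOf h (4 * b + 4, I.2.1 + j, 0)).1 = ((2 * (4 * (b : ℤ) + 4) : ℤ) : ℝ) := by
    simp [ptOf]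
  have hy : (ptOf h (4 * b + 4, I.2.1 + j, 0)).2 =
      16 * ((I.2.1 : ℝ) + j) + 4 * h (4 * b + 4, I.2.1 + j, 0) := by
    simp [ptOf]
  unfold cWall at hn
  split_ifs at hn with hs
  · refine ⟨fun _ => ?_, fun h => ?_⟩
    · obtain ⟨c1, c2⟩ := not_mem_zseg o hx hn
      rw [hy] at c1 c2
      push_cast at c1 c2
      cases o
      · rcases c2 rfl with c3 | c3
        · linarith [a1.1]
        · linarith
      · rcases c1 with c1 | c1
        · linarith [(b1 rfl).1]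
        · linarith
    · rw [hs] at h
      exact absurd h (by decide)
  · refine ⟨fun h => absurd h hs, fun _ => ?_⟩
    obtain ⟨c1, c2⟩ := not_mem_zseg o hx hn
    rw [hy] at c1 c2
    push_cast at c1 c2
    cases o
    · rcases c2 rfl with c3 | c3
      · linarith
      · linarith [a1.2]
    · rcases c1 with c1 | c1
      · linarith
      · linarith [(b1 rfl).2]

/-- The gate of kind `6`. -/
theorem xs6W (o : Bool) {b : ℕ} {S : List Bool} {I : ℕ × ℕ × ℕ × List Bool} (hI : WFI I S)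
    (hk : I.1 = 6) {h : ℕ × ℕ × ℕ → ℝ} (h01 : ∀ v, 0 ≤ h v ∧ h v ≤ 1)
    (h2 : 1 / 2 ≤ h (4 * b + 2, I.2.1 + 1, 2))
    (hE : ∀ e ∈ bE b S I, ∀ f ∈ bE b S I, e ≠ f → ∀ z ∈ segment ℝ (ptOf h e.1) (ptOf h e.2),
      z ∈ segment ℝ (ptOf h f.1) (ptOf h f.2) →
      ∃ w, (w = e.1 ∨ w = e.2) ∧ (w = f.1 ∨ w = f.2) ∧ z = ptOf h w)
    (hO : Disjoint (segment ℝ (ptOf h (4 * b + 1, I.2.1, 0)) (ptOf h (4 * b + 2, I.2.1 + 1, 2)))
      (zseg o (2 * (4 * b + 2)) (16 * (I.2.1 + 1) - 4) (2 * (4 * b + 2))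
        (16 * (I.2.1 + 1))).pts) :
    1 ≤ h (4 * b + 2, I.2.1 + 1, 2) * (2 - h (4 * b + 1, I.2.1, 0)) ∧
      h (4 * b + 2, I.2.1 + 1, 2) < h (4 * b + 2, I.2.1 + 1, 0) +
        (h (4 * b + 3, I.2.1 + 1, 1) - h (4 * b + 2, I.2.1 + 1, 0)) *
          h (4 * b + 2, I.2.1 + 1, 2) ∧
      h (4 * b + 3, I.2.1 + 1, 1) < h (4 * b + 3, I.2.1 + 1, 0) := by
  have hp3 : I.2.1 + 3 ≤ S.length := (WFI_pos hI).2.2.1 (by omega)
  -- the edges
  have m1 : ((4 * b + 1, I.2.1, 0), (4 * b + 2, I.2.1 + 1, 2)) ∈ bE b S I := by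
    unfold bE
    rw [List.mem_append]
    right
    simp [bX, hk]
  have m2 : ((4 * b + 2, I.2.1 + 1, 0), (4 * b + 3, I.2.1 + 1, 1)) ∈ bE b S I := by
    unfold bE
    rw [List.mem_append]
    right
    simp [bX, hk]
  have m3 : ((4 * b + 2, I.2.1 + 2, 0), (4 * b + 3, I.2.1 + 1, 0)) ∈ bE b S I := by
    unfold bE
    rw [List.mem_append, List.mem_map]
    left
    refine ⟨(4 * b + 2, I.2.1 + 2, I.2.1 + 1, sgn I.1 I.2.1 S 2 (I.2.1 + 2)), ?_, rfl⟩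
    rw [mem_bP]
    right
    refine ⟨2, I.2.1 + 2, by norm_num, by omega, by omega, ?_, ?_⟩
    · rw [hk]
      simp only [has]
      norm_num
      omega
    · rw [hk]
      simp only [tgt]
      norm_num
  set r := h (4 * b + 2, I.2.1 + 1, 2) with hr
  set u := h (4 * b + 1, I.2.1, 0) with hu
  set a := h (4 * b + 2, I.2.1 + 1, 0) with ha
  set c := h (4 * b + 3, I.2.1 + 1, 1) with hc
  set v := h (4 * b + 3, I.2.1 + 1, 0) with hv
  have hr1 : r ≤ 1 := (h01 _).2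
  have hu1 : 0 ≤ u ∧ u ≤ 1 := h01 _
  have ha1 : 0 ≤ a ∧ a ≤ 1 := h01 _
  have hmid := gK6_mid (b := b) (p := I.2.1) (u := u) (r := r) ⟨h2, hr1⟩
  have hmidle := gK6_mid_le (p := I.2.1) (u := u) (r := r) hu1 ⟨h2, hr1⟩
  have hlt : (2 * ((4 * b + 1 : ℕ) : ℝ)) < 2 * ((4 * b + 2 : ℕ) : ℝ) + 2 * r := by
    rw [gK6_cast1, gK6_cast2]; linarith
  have hlt2 : (2 * ((4 * b + 2 : ℕ) : ℝ)) < 2 * ((4 * b + 3 : ℕ) : ℝ) := by
    rw [gK6_cast2, gK6_cast3]; linarith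
  have a3 : 8 * (b : ℝ) + 4 = 2 * ((4 * b + 2 : ℕ) : ℝ) := by push_cast; ring
  -- the additional obstacle
  have s1 : 16 * (I.2.1 : ℝ) + 4 * u + (16 + 4 * r - 4 * u) * (1 / (1 + r)) ≤
      16 * (I.2.1 : ℝ) + 12 := by
    by_contra hcon
    push Not at hcon
    rw [Set.disjoint_left] at hO
    refine @hO (8 * (b : ℝ) + 4,
      16 * (I.2.1 : ℝ) + 4 * u + (16 + 4 * r - 4 * u) * (1 / (1 + r))) ?_ ?_
    · rw [gK6_pt0, gK6_pt2, ← hr, ← hu]
      rw [mem_seg_iff (by exact hlt)]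
      refine ⟨?_, ?_, ?_⟩
      · simp only
        rw [gK6_cast1]; linarith
      · simp only
        rw [gK6_cast2]; linarith
      · simp only
        rw [hmid]
    · refine mem_zseg o ?_ ?_ ?_
      · push_cast
        ring
      · push_cast
        linarith
      · push_cast
        linarith
  have r1 : 1 ≤ r * (2 - u) := by
    have h1 : 0 < 1 + r := by linarith
    have h3 : (16 + 4 * r - 4 * u) * (1 / (1 + r)) ≤ 12 - 4 * u := by linarith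
    rw [mul_one_div, div_le_iff₀ h1] at h3
    nlinarith
  have r2 : r < a + (c - a) * r := by
    by_contra hcon
    push Not at hcon
    obtain ⟨z, hz, hz', -, -⟩ := seg_meet
      (A := (2 * ((4 * b + 1 : ℕ) : ℝ), 16 * (I.2.1 : ℝ) + 4 * u))
      (B := (2 * ((4 * b + 2 : ℕ) : ℝ) + 2 * r, 16 * ((I.2.1 + 1 : ℕ) : ℝ) + 4 * r))
      (C := (2 * ((4 * b + 2 : ℕ) : ℝ), 16 * ((I.2.1 + 1 : ℕ) : ℝ) + 4 * a))
      (D := (2 * ((4 * b + 3 : ℕ) : ℝ), 16 * ((I.2.1 + 1 : ℕ) : ℝ) + 4 * c))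
      (s := 8 * (b : ℝ) + 4) (t := 2 * ((4 * b + 2 : ℕ) : ℝ) + 2 * r) hlt hlt2
      (by rw [gK6_cast2]; linarith) (by simp only; rw [gK6_cast1]; linarith)
      (by simp only; rw [← a3]) le_rfl
      (by simp only; rw [gK6_cast2, gK6_cast3]; linarith)
      (by
        rw [hmid, gK6_leftX hlt2 a3]
        push_cast
        linarith [ha1.1])
      (by
        rw [gK6_right hlt, gK6_at]
        linarith)
    obtain ⟨w, hw1, hw2, -⟩ := hE _ m1 _ m2 (by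
      intro heq
      have := congrArg (fun x => x.1.1) heq
      simp only at this
      omega) z (by rw [gK6_pt0, gK6_pt2]; exact hz) (by rw [gK6_pt0, gK6_pt1]; exact hz')
    simp only at hw1 hw2
    rcases hw1 with rfl | rfl <;> rcases hw2 with hw2 | hw2 <;>
      simp only [Prod.mk.injEq] at hw2 <;> omega
  have r3 : c < v := by
    by_contra hcon
    push Not at hcon
    have g0 := h01 (4 * b + 2, I.2.1 + 2, 0)
    obtain ⟨z, hz, hz', -, -⟩ := seg_meet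
      (A := (2 * ((4 * b + 2 : ℕ) : ℝ), 16 * ((I.2.1 + 1 : ℕ) : ℝ) + 4 * a))
      (B := (2 * ((4 * b + 3 : ℕ) : ℝ), 16 * ((I.2.1 + 1 : ℕ) : ℝ) + 4 * c))
      (C := (2 * ((4 * b + 2 : ℕ) : ℝ), 16 * ((I.2.1 + 2 : ℕ) : ℝ) +
        4 * h (4 * b + 2, I.2.1 + 2, 0)))
      (D := (2 * ((4 * b + 3 : ℕ) : ℝ), 16 * ((I.2.1 + 1 : ℕ) : ℝ) + 4 * v))
      (s := 2 * ((4 * b + 2 : ℕ) : ℝ)) (t := 2 * ((4 * b + 3 : ℕ) : ℝ)) hlt2 hlt2
      hlt2.le le_rfl le_rfl le_rfl le_rfl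
      (by
        rw [gK6_left hlt2, gK6_left hlt2]
        push_cast
        linarith [ha1.2, g0.1])
      (by
        rw [gK6_right hlt2, gK6_right hlt2]
        linarith)
    obtain ⟨w, hw1, hw2, -⟩ := hE _ m2 _ m3 (by
      intro heq
      have := congrArg (fun x => x.1.2.1) heq
      simp only at this
      omega) z (by rw [gK6_pt0, gK6_pt1]; exact hz) (by rw [gK6_pt0, gK6_pt0]; exact hz')
    simp only at hw1 hw2
    rcases hw1 with rfl | rfl <;> rcases hw2 with hw2 | hw2 <;>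
      simp only [Prod.mk.injEq] at hw2 <;> omega
  exact ⟨r1, r2, r3⟩

theorem drawn_heights (o : Bool) {π : List (ℕ × ℕ × ℕ × List Bool)} (hW : WF π [])
    {P : ℕ × ℕ × ℕ → ℝ × ℝ} (hD : Drawn (lV o π) (lE π) (lO o π) P) :
    ∃ h : ℕ × ℕ × ℕ → ℝ, (∀ v, 0 ≤ h v ∧ h v ≤ 1) ∧
      ((∀ v, 0 < h v ∧ h v < 1) ∨
        ∀ B ∈ blocks 0 [] π, ∀ q ∈ bP B.1 B.2.1 B.2.2, passOK h q) ∧
      ∀ B ∈ blocks 0 [] π, blkW h B := by
  have hends := (good_of_WF o hW).ends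
  have hch : ∀ v : ℕ × ℕ × ℕ, ∃ u : ℝ, 0 ≤ u ∧ u ≤ 1 ∧ (o = true → 0 < u ∧ u < 1) ∧
      ((∃ x ∈ lV o π, x.1 = v) →
      (v.2.2 = 2 → 1 / 2 ≤ u) ∧ P v = if v.2.2 = 2 then (2 * (v.1 : ℝ) + 2 * u,
        16 * (v.2.1 : ℝ) + 4 * u) else (2 * (v.1 : ℝ), 16 * (v.2.1 : ℝ) + 4 * u)) := by
    intro v
    by_cases hv : ∃ x ∈ lV o π, x.1 = v
    · obtain ⟨x, hx, rfl⟩ := hv
      have hon := hD.onSeg x hx
      obtain ⟨B, hB, v, hv, rfl⟩ := mem_lV.1 hx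
      obtain ⟨u, hu0, hu1, huo, h2, h3⟩ := vSeg_pts o v hon
      refine ⟨u, hu0, hu1, huo, fun _ => ⟨fun h => (h2 h).1, ?_⟩⟩
      split_ifs with h
      · exact (h2 h).2
      · exact h3 h
    · exact ⟨1 / 2, by norm_num, by norm_num, fun _ => by norm_num, fun h => absurd h hv⟩
  choose h h0 h1 ho hP using hch
  have hPv : ∀ v : ℕ × ℕ × ℕ, (∃ x ∈ lV o π, x.1 = v) → P v = ptOf h v := by
    intro v hv
    rw [(hP v hv).2]
    rfl
  have hE : ∀ B ∈ blocks 0 [] π, ∀ e ∈ bE B.1 B.2.1 B.2.2,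
      P e.1 = ptOf h e.1 ∧ P e.2 = ptOf h e.2 := by
    intro B hB e he
    have h2 := hends e (gD_mem_lE.2 ⟨B, hB, he⟩)
    exact ⟨hPv _ h2.1, hPv _ h2.2⟩
  have hEE : ∀ B ∈ blocks 0 [] π, ∀ e ∈ bE B.1 B.2.1 B.2.2, ∀ f ∈ bE B.1 B.2.1 B.2.2, e ≠ f →
      ∀ z ∈ segment ℝ (ptOf h e.1) (ptOf h e.2), z ∈ segment ℝ (ptOf h f.1) (ptOf h f.2) →
      ∃ w, (w = e.1 ∨ w = e.2) ∧ (w = f.1 ∨ w = f.2) ∧ z = ptOf h w := by
    intro B hB e he f hf hne z hz hz'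
    obtain ⟨he1, he2⟩ := hE B hB e he
    obtain ⟨hf1, hf2⟩ := hE B hB f hf
    rw [← he1, ← he2] at hz
    rw [← hf1, ← hf2] at hz'
    obtain ⟨w, h3, h4, h5⟩ := hD.edge e (gD_mem_lE.2 ⟨B, hB, he⟩) f (gD_mem_lE.2 ⟨B, hB, hf⟩)
      hne z hz hz'
    refine ⟨w, h3, h4, ?_⟩
    rcases h3 with rfl | rfl
    · rw [h5, he1]
    · rw [h5, he2]
  have hO : ∀ B ∈ blocks 0 [] π, ∀ e ∈ bE B.1 B.2.1 B.2.2, ∀ s ∈ bO o B.1 B.2.1 B.2.2,
      Disjoint (segment ℝ (ptOf h e.1) (ptOf h e.2)) s.pts := by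
    intro B hB e he s hs
    obtain ⟨he1, he2⟩ := hE B hB e he
    rw [← he1, ← he2]
    exact hD.obst e (gD_mem_lE.2 ⟨B, hB, he⟩) s (mem_lO.2 ⟨B, hB, hs⟩)
  have h01 : ∀ v, 0 ≤ h v ∧ h v ≤ 1 := fun v => ⟨h0 v, h1 v⟩
  have ho' : o = true → ∀ v, 0 < h v ∧ h v < 1 := fun hto v => ho v hto
  have hpass : ∀ B ∈ blocks 0 [] π, ∀ q ∈ bP B.1 B.2.1 B.2.2,
      passW h q ∧ (o = false → passOK h q) := by
    intro B hB q hq
    refine pass_soundW o q h01 ho' ?_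
    refine hO _ hB ((q.1, q.2.1, 0), (q.1 + 1, q.2.2.1, 0)) ?_ _ (mem_bO.2 (Or.inl ⟨q, hq, rfl⟩))
    unfold bE
    rw [List.mem_append, List.mem_map]
    exact Or.inl ⟨q, hq, rfl⟩
  refine ⟨h, h01, ?_, ?_⟩
  · cases o
    · exact Or.inr fun B hB q hq => (hpass B hB q hq).2 rfl
    · exact Or.inl (ho' rfl)
  rintro ⟨b, S, I⟩ hB
  have hI : WFI I S := blocks_wf hW _ hB
  refine ⟨fun q hq => (hpass _ hB q hq).1, ?_⟩
  change extraW h b I
  have hkind := WFI_kind hI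
  have hcases : I.1 = 0 ∨ I.1 = 1 ∨ I.1 = 2 ∨ I.1 = 3 ∨ I.1 = 4 ∨ I.1 = 5 ∨ I.1 = 6 := by
    omega
  rcases hcases with hk | hk | hk | hk | hk | hk | hk
  · unfold extraW
    rw [hk]
    norm_num
  · unfold extraW
    rw [if_pos hk]
    intro j hj
    refine const_sound o b I j h01 ho' ?_
    have hq : (4 * b + 3, I.2.1, I.2.1 + j, I.2.2.2.getD j false) ∈ bP b S I := by
      refine mem_bP.2 (Or.inl ⟨by omega, (WFI_pos hI).1, j, hj, rfl⟩)
    have hd := hO _ hB ((4 * b + 3, I.2.1, 0), (4 * b + 3 + 1, I.2.1 + j, 0)) (by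
      unfold bE
      rw [List.mem_append, List.mem_map]
      exact Or.inl ⟨_, hq, rfl⟩) _ (mem_bO.2 (Or.inr (Or.inr ⟨hk, j, hj, rfl⟩)))
    rw [Set.disjoint_left] at hd
    exact hd (right_mem_segment ℝ _ _)
  · unfold extraW
    rw [hk]
    norm_num
  · have h3 := xs3 hI hk h01 (hEE _ hB)
    unfold extraOK at h3
    unfold extraW
    rw [if_neg (by omega), if_pos hk] at h3 ⊢
    exact h3
  · have h3 := xs4 hI hk h01 (hEE _ hB)
    unfold extraOK at h3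
    unfold extraW
    rw [if_neg (by omega), if_neg (by omega), if_pos hk] at h3 ⊢
    exact h3
  · have h3 := xs5 hI hk h01 (hEE _ hB)
    unfold extraOK at h3
    unfold extraW
    rw [if_neg (by omega), if_neg (by omega), if_neg (by omega), if_pos hk] at h3 ⊢
    exact h3
  · have m1 : ((4 * b + 1, I.2.1, 0), (4 * b + 2, I.2.1 + 1, 2)) ∈ bE b S I := by
      unfold bE
      rw [List.mem_append]
      right
      simp [bX, hk]
    unfold extraW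
    rw [if_neg (by omega), if_neg (by omega), if_neg (by omega), if_neg (by omega), if_pos hk]
    refine xs6W o hI hk h01 ?_ (hEE _ hB)
      (hO _ hB _ m1 _ (mem_bO.2 (Or.inr (Or.inl ⟨hk, rfl⟩))))
    exact (hP _ (hends _ (gD_mem_lE.2 ⟨_, hB, m1⟩)).2).1 rfl

end Pool.Agent.H77.SH
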