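import Pool.Agent.H77.SG.VDefs
import Pool.Agent.H77.SH.Defs

/-!
# From heights to programs: instructions of kind 2

drop.

PROOF. The ordinary edges are listed by `mem_bP` (unfold `has`, `tgt`, `sgn`, `passW`, `low`; the
parity of `4 * b + l` is that of `l`). A wire which is not consumed passes four times, so its value
(`h` on even lines, `1 - h` on odd lines) decreases if it is a minus wire and increases if it is a plus
wire: this gives `Better` (compare the lists element by element, `List.forall₂_iff_get` or the like;
the position of the wire number `k` in the next front is the value of `tgt` on the last line). Keep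
`F'` explicit: it is obtained from `fr h b S` by `List.take`, `List.drop` and the word.
-/

set_option autoImplicit false

namespace Pool.Agent.H77.SH

open Pool.Agent.H77.SG

/-- Four passes in a row. -/
theorem vs2_four {h : ℕ × ℕ × ℕ → ℝ} {b j0 j1 j2 j3 j4 : ℕ} {s : Bool}
    (h0 : passW h (4 * b + 0, j0, j1, s)) (h1 : passW h (4 * b + 1, j1, j2, s))
    (h2 : passW h (4 * b + 2, j2, j3, s)) (h3 : passW h (4 * b + 3, j3, j4, s)) :
    (s = true → h (4 * b, j0, 0) ≤ h (4 * (b + 1), j4, 0)) ∧
      (s = false → h (4 * (b + 1), j4, 0) ≤ h (4 * b, j0, 0)) := by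
  have m0 : (4 * b) % 2 = 0 := by omega
  have m1 : (4 * b + 1) % 2 = 1 := by omega
  have m2 : (4 * b + 2) % 2 = 0 := by omega
  have m3 : (4 * b + 3) % 2 = 1 := by omega
  have e3 : 4 * b + 3 + 1 = 4 * (b + 1) := by omega
  have e0 : 4 * b + 0 = 4 * b := rfl
  have e2 : 4 * b + 1 + 1 = 4 * b + 2 := rfl
  have e2' : 4 * b + 2 + 1 = 4 * b + 3 := rfl
  unfold passW low at h0 h1 h2 h3
  simp only [e0, m0, m1, m2, m3, e3, e2', e2] at h0 h1 h2 h3
  cases s
  · refine ⟨fun hs => absurd hs (by decide), fun _ => ?_⟩
    simp at h0 h1 h2 h3
    linarith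
  · refine ⟨fun _ => ?_, fun hs => absurd hs (by decide)⟩
    simp at h0 h1 h2 h3
    linarith

theorem stepS2 {h : ℕ × ℕ × ℕ → ℝ} {b : ℕ} {S : List Bool} {I : ℕ × ℕ × ℕ × List Bool}
    (hk : I.1 = 2) (hI : WFI I S) (h01 : ∀ v, 0 ≤ h v ∧ h v ≤ 1) (hB : blkW h (b, S, I)) :
    ∃ F', Rel I (fr h b S) F' ∧ Better F' (fr h (b + 1) (nextS I S)) := by
  obtain ⟨t, p, c, w⟩ := I
  simp only at hk
  subst hk
  have hp : p < S.length := (WFI_pos hI).2.1 rfl
  have hlen := length_fr h b S
  have hpF : p < (fr h b S).length := by rw [hlen]; exact hp
  -- the passes of the wire number `κ`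
  have hpass : ∀ κ, κ < S.length → κ ≠ p →
      (S.getD κ false = true → h (4 * b, κ, 0) ≤
        h (4 * (b + 1), (if κ < p then κ else κ - 1), 0)) ∧
      (S.getD κ false = false → h (4 * (b + 1), (if κ < p then κ else κ - 1), 0) ≤
        h (4 * b, κ, 0)) := by
    intro κ hκ hκp
    have hmem : ∀ l, l < 4 → (4 * b + l, κ, (if l ≤ 2 then κ else if κ < p then κ else κ - 1),
        S.getD κ false) ∈ bP b S (2, p, c, w) := by
      intro l hl
      rw [mem_bP]
      refine Or.inr ⟨l, κ, hl, hκ.le, ?_, ?_, ?_⟩
      · simp
      · simp only [has]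
        by_cases hl2 : l ≤ 2
        · simp [hl2, hκ]
        · simp [hl2, hκ, hκp]
      · simp [tgt, sgn]
    have p0 := hB.1 _ (hmem 0 (by omega))
    have p1 := hB.1 _ (hmem 1 (by omega))
    have p2 := hB.1 _ (hmem 2 (by omega))
    have p3 := hB.1 _ (hmem 3 (by omega))
    simp only [show (0 : ℕ) ≤ 2 from by omega, show (1 : ℕ) ≤ 2 from by omega,
      show (2 : ℕ) ≤ 2 from by omega, show ¬ (3 : ℕ) ≤ 2 from by omega, if_true, if_false]
      at p0 p1 p2 p3
    exact vs2_four p0 p1 p2 p3
  refine ⟨(fr h b S).take p ++ (fr h b S).drop (p + 1), ?_, ?_⟩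
  · unfold SG.Rel
    rw [if_neg (by simp), if_neg (by simp), if_pos rfl]
    refine ⟨(fr h b S).take p, (fr h b S).drop (p + 1), (fr h b S)[p], ?_, ?_, rfl⟩
    · rw [← List.drop_eq_getElem_cons hpF, List.take_append_drop]
    · rw [List.length_take, hlen]
      exact Nat.min_eq_left hp.le
  · have hS : nextS (2, p, c, w) S = S.take p ++ S.drop (p + 1) := by
      simp [nextS]
    rw [hS]
    unfold Better
    rw [List.forall₂_iff_get]
    constructor
    · simp [hlen, length_fr]
    · intro i h1 h2
      rw [List.get_eq_getElem, List.get_eq_getElem]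
      simp only [getElem_fr]
      have hi : i < S.length - 1 := by
        have h3 := h1
        rw [List.length_append, List.length_take, List.length_drop, hlen] at h3
        omega
      by_cases hip : i < p
      · have e1 : ((fr h b S).take p ++ (fr h b S).drop (p + 1))[i] =
            (h (4 * b, i, 0), S.getD i false) := by
          rw [List.getElem_append_left (by rw [List.length_take, hlen]; omega),
            List.getElem_take, getElem_fr]
        have e2 : (S.take p ++ S.drop (p + 1)).getD i false = S.getD i false := by
          rw [List.getD_eq_getElem?_getD, List.getD_eq_getElem?_getD,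
            List.getElem?_append_left (by rw [List.length_take]; omega),
            List.getElem?_take_of_lt hip]
        simp only [e1, e2]
        have h4 := hpass i (by omega) (by omega)
        rw [if_pos hip] at h4
        exact ⟨trivial, h4.1, h4.2⟩
      · have e1 : ((fr h b S).take p ++ (fr h b S).drop (p + 1))[i] =
            (h (4 * b, i + 1, 0), S.getD (i + 1) false) := by
          rw [List.getElem_append_right (by rw [List.length_take, hlen]; omega),
            List.getElem_drop, getElem_fr]
          have h5 : p + 1 + (i - ((fr h b S).take p).length) = i + 1 := by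
            rw [List.length_take, hlen]
            omega
          rw [h5]
        have e2 : (S.take p ++ S.drop (p + 1)).getD i false = S.getD (i + 1) false := by
          rw [List.getD_eq_getElem?_getD, List.getD_eq_getElem?_getD,
            List.getElem?_append_right (by rw [List.length_take]; omega),
            List.getElem?_drop]
          have h5 : p + 1 + (i - (S.take p).length) = i + 1 := by
            rw [List.length_take]
            omega
          rw [h5]
        simp only [e1, e2]
        have h4 := hpass (i + 1) (by omega) (by omega)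
        rw [if_neg (by omega), Nat.add_sub_cancel] at h4
        exact ⟨trivial, h4.1, h4.2⟩

end Pool.Agent.H77.SH
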