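import Pool.Agent.H77.SG.VS0
import Pool.Agent.H77.SH.VS0
import Pool.Agent.H77.SH.VS1
import Pool.Agent.H77.SH.VS2
import Pool.Agent.H77.SH.VS3
import Pool.Agent.H77.SH.VS4
import Pool.Agent.H77.SH.VS5
import Pool.Agent.H77.SH.VS6

/-!
# From weak heights to programs
-/

set_option autoImplicit false

namespace Pool.Agent.H77.SH

open Pool.Agent.H77.SG

theorem vmain_stepW {h : ℕ × ℕ × ℕ → ℝ} {b : ℕ} {S : List Bool} {I : ℕ × ℕ × ℕ × List Bool}
    (hI : WFI I S) (h01 : ∀ v, 0 ≤ h v ∧ h v ≤ 1)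
    (hs : (∀ v, 0 < h v ∧ h v < 1) ∨ ∀ q ∈ bP b S I, passOK h q) (hB : blkW h (b, S, I)) :
    ∃ F', SG.Rel I (fr h b S) F' ∧ Better F' (fr h (b + 1) (nextS I S)) := by
  have hk := WFI_kind hI
  have h7 : I.1 = 0 ∨ I.1 = 1 ∨ I.1 = 2 ∨ I.1 = 3 ∨ I.1 = 4 ∨ I.1 = 5 ∨ I.1 = 6 := by omega
  rcases h7 with h | h | h | h | h | h | h
  · rcases hs with hs | hs
    · exact stepS0 h hI hs hB
    · refine SG.stepS0 h hI h01 ⟨hs, ?_⟩
      unfold extraOK
      change if I.1 = 1 then _ else _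
      simp [h]
  · exact stepS1 h hI h01 hB
  · exact stepS2 h hI h01 hB
  · exact stepS3 h hI h01 hB
  · exact stepS4 h hI h01 hB
  · exact stepS5 h hI h01 hB
  · exact stepS6 h hI h01 hB

theorem heights_run' {π : List (ℕ × ℕ × ℕ × List Bool)} : ∀ {b : ℕ} {S : List Bool}, WF π S →
    ∀ {h : ℕ × ℕ × ℕ → ℝ}, (∀ v, 0 ≤ h v ∧ h v ≤ 1) →
    ((∀ v, 0 < h v ∧ h v < 1) ∨
      ∀ B ∈ blocks b S π, ∀ q ∈ bP B.1 B.2.1 B.2.2, passOK h q) →
    (∀ B ∈ blocks b S π, blkW h B) → Run π (fr h b S) := by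
  induction π with
  | nil =>
    intro b S _ h _ _ _
    trivial
  | cons I π ih =>
    intro b S hW h h01 hs hB
    obtain ⟨hI, hW'⟩ := hW
    have hmem : (b, S, I) ∈ blocks b S (I :: π) := by
      rw [blocks]
      exact List.mem_cons_self
    obtain ⟨F', hR, hb⟩ := vmain_stepW hI h01 (hs.imp id fun hs => hs _ hmem) (hB _ hmem)
    have h1 : Run π (fr h (b + 1) (nextS I S)) := by
      refine ih hW' h01 ?_ ?_
      · rcases hs with hs | hs
        · exact Or.inl hs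
        · refine Or.inr ?_
          intro B hB'
          refine hs B ?_
          rw [blocks]
          exact List.mem_cons_of_mem _ hB'
      · intro B hB'
        refine hB B ?_
        rw [blocks]
        exact List.mem_cons_of_mem _ hB'
    refine ⟨F', hR, Run_mono hb ?_ h1⟩
    intro a ha
    unfold fr at ha
    rw [List.mem_map] at ha
    obtain ⟨k, _, rfl⟩ := ha
    exact (h01 _).1

theorem heights_run {π : List (ℕ × ℕ × ℕ × List Bool)} (hW : WF π []) {h : ℕ × ℕ × ℕ → ℝ}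
    (h01 : ∀ v, 0 ≤ h v ∧ h v ≤ 1)
    (hs : (∀ v, 0 < h v ∧ h v < 1) ∨
      ∀ B ∈ blocks 0 [] π, ∀ q ∈ bP B.1 B.2.1 B.2.2, passOK h q)
    (hB : ∀ B ∈ blocks 0 [] π, blkW h B) : Run π [] :=
  heights_run' hW h01 hs hB

end Pool.Agent.H77.SH
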