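import Pool.Agent.H77.SG.Final
import Pool.Agent.H77.SH.VMain
import Pool.Agent.H77.SH.Sound
import Pool.Agent.H77.SH.Comp
import Pool.Agent.H77.SH.PJ

/-!
# The reduction without degenerate segments
-/

set_option autoImplicit false

namespace Pool.Agent.H77.SH

open Pool.Agent.H79.Cx Pool.Agent.H78.NP Pool.Agent.H77.SG Turing

theorem drawn_of_plain {V : List ((ℕ × ℕ × ℕ) × Seg)} {E : List ((ℕ × ℕ × ℕ) × (ℕ × ℕ × ℕ))}
    (hG : Good V E) (O : List Seg) {Q : ℕ → ℝ × ℝ} (hQ : (mkInst V E O).Plain Q) :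
    Drawn V E O (fun v => Q (nm v)) := by
  refine ⟨fun x hx => hQ.onSeg _ _ _ (preb_has hx), fun x hx y hy hxy => ?_,
    fun e he f hf hef z hz hz' => ?_, fun e he s hs => ?_⟩
  · exact nm_injective (hQ.inj _ _ ⟨_, _, preb_has hx⟩ ⟨_, _, preb_has hy⟩ hxy)
  · have h1 : (mkInst V E O).Nb (nm e.1) (nm e.2) := (mkInst_nb hG O _ _).2 (Or.inl he)
    have h2 : (mkInst V E O).Nb (nm f.1) (nm f.2) := (mkInst_nb hG O _ _).2 (Or.inl hf)
    have h3 : ¬ (nm e.1 = nm f.1 ∧ nm e.2 = nm f.2) := by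
      rintro ⟨h4, h5⟩
      exact hef (Prod.ext (nm_injective h4) (nm_injective h5))
    have h4 : ¬ (nm e.1 = nm f.2 ∧ nm e.2 = nm f.1) := by
      rintro ⟨h4, h5⟩
      have h6 := nm_injective h4
      have h7 := nm_injective h5
      have h8 := (hG.right e he).1
      have h9 := (hG.right f hf).1
      rw [h6, h7] at h8
      omega
    obtain ⟨w, hw1, hw2, hw3⟩ := hQ.edgeEdge _ _ _ _ h1 h2 h3 h4 z hz hz'
    refine ⟨preb_un w, ?_, ?_, ?_⟩
    · rcases hw1 with h | h
      · left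
        rw [h, preb_un_nm]
      · right
        rw [h, preb_un_nm]
    · rcases hw2 with h | h
      · left
        rw [h, preb_un_nm]
      · right
        rw [h, preb_un_nm]
    · simp only [preb_nm_un]
      exact hw3
  · exact hQ.obstacle _ _ ((mkInst_nb hG O _ _).2 (Or.inl he)) s hs

theorem plain_of_drawing {I : Inst} {P : ℕ → ℝ × ℝ} (h : I.Drawing P) : I.Plain P :=
  ⟨h.onSeg, h.inj, h.vertexEdge, h.edgeEdge, h.obstacle⟩

theorem instOf_valid (o : Bool) {π : List (ℕ × ℕ × ℕ × List Bool)} (hW : WF π []) :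
    (instOf o π).Valid := mkInst_valid (good_of_WF o hW) _

theorem instOf_plain (o : Bool) {π : List (ℕ × ℕ × ℕ × List Bool)} (hW : WF π [])
    {P : ℕ → ℝ × ℝ} (hP : (instOf o π).Plain P) : SG.Run π [] := by
  obtain ⟨h, h01, hs, hB⟩ := drawn_heights o hW (drawn_of_plain (good_of_WF o hW) _ hP)
  exact heights_run hW h01 hs hB

theorem instOf_run (o : Bool) {π : List (ℕ × ℕ × ℕ × List Bool)} (hW : WF π [])
    (hR : SG.Run π []) : (instOf o π).Yes := by
  unfold instOf
  rw [mkInst_yes (good_of_WF o hW) (lV_segs o π)]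
  obtain ⟨h, h01, hB⟩ := run_heights hW hR
  exact ⟨_, heights_drawn o hW h01 hB⟩

attribute [local irreducible] WF progOf strictOf qsOf instOf SG.Run SSat QSat

/-- The instance of a formula. -/
def instF (o : Bool) (φ : Fm) : Inst := instOf o (progOf (strictOf (qsOf φ.toks)))

theorem instF_valid (o : Bool) (φ : Fm) : (instF o φ).Valid := by
  have h := instOf_valid o (prog_wf (strictOf (qsOf φ.toks)))
  unfold instF
  exact h

theorem instF_proper (o : Bool) (φ : Fm) : (instF o φ).Proper := by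
  have h := instOf_proper o (prog_wf (strictOf (qsOf φ.toks)))
  unfold instF
  exact h

theorem run_iff (φ : Fm) : SG.Run (progOf (strictOf (qsOf φ.toks))) [] ↔ φ.True := by
  rw [← prog_iff, ← strict_iff, qs_iff]

theorem instF_yes (o : Bool) {φ : Fm} (h : φ.True) : (instF o φ).Yes := by
  have h1 := instOf_run o (prog_wf (strictOf (qsOf φ.toks))) ((run_iff φ).2 h)
  unfold instF
  exact h1

theorem instF_plain (o : Bool) {φ : Fm} {P : ℕ → ℝ × ℝ} (h : (instF o φ).Plain P) : φ.True := by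
  unfold instF at h
  exact (run_iff φ).1 (instOf_plain o (prog_wf (strictOf (qsOf φ.toks))) h)

theorem instF_open (φ : Fm) : (instF true φ).AllOpen := by
  have h := instOf_open (progOf (strictOf (qsOf φ.toks)))
  unfold instF
  exact h

theorem instF_closed (φ : Fm) : (instF false φ).AllClosed := by
  have h := instOf_closed (progOf (strictOf (qsOf φ.toks)))
  unfold instF
  exact h

theorem repInst_instF (o : Bool) (φ : Fm) :
    repInst (instF o φ) = repInst (instOf o (progOf (strictOf (qsOf φ.toks)))) := by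
  unfold instF
  rfl

theorem reduction (o : Bool) {L : Set (List Bool)} (hL : InER L) : ∃ f : List Bool → Inst,
    Nonempty (TM2ComputableInPolyTime (id : List Bool → List Bool) encInst f) ∧
    ∀ x, (f x).Valid ∧ (f x).Proper ∧ (∃ φ, f x = instF o φ) ∧ (x ∈ L ↔ (f x).Yes) ∧
      (x ∈ L ↔ ∃ P, (f x).Plain P) := by
  obtain ⟨g, hg, hgL⟩ := hL
  have h1 : PT (fun l : List (ℕ × ℕ) => repInst (instOf o (progOf (strictOf (qsOf l))))) :=
    PT.comp (g := fun π => repInst (instOf o π)) (PT_instOf o)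
      (PT.comp (g := fun C => progOf C) PT_progOf
        (PT.comp (g := fun G => strictOf G) PT_strictOf PT_qsOf))
  have h2 : Nonempty (TM2ComputableInPolyTime encFm encInst (instF o)) :=
    toTM2_reps Fm.toks repInst h1 (repInst_instF o)
  refine ⟨fun x => instF o (g x), comp (f := g) (g := instF o) hg h2,
    fun x => ⟨instF_valid o (g x), instF_proper o (g x), ⟨g x, rfl⟩, ?_, ?_⟩⟩
  · rw [hgL x]
    exact ⟨fun h => instF_yes o h, fun ⟨_, hP⟩ => instF_plain o (plain_of_drawing hP)⟩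
  · rw [hgL x]
    exact ⟨fun h => (instF_yes o h).imp fun _ hP => plain_of_drawing hP,
      fun ⟨_, hP⟩ => instF_plain o hP⟩

theorem open_hard {L : Set (List Bool)} (hL : InER L) : ∃ f : List Bool → Inst,
    Nonempty (TM2ComputableInPolyTime (id : List Bool → List Bool) encInst f) ∧
    ∀ x, (f x).Valid ∧ (f x).AllOpen ∧ (f x).Proper ∧ (x ∈ L ↔ (f x).Yes) ∧
      (x ∈ L ↔ ∃ P, (f x).Plain P) := by
  obtain ⟨f, hf, h⟩ := reduction true hL
  refine ⟨f, hf, fun x => ⟨(h x).1, ?_, (h x).2.1, (h x).2.2.2⟩⟩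
  obtain ⟨φ, hφ⟩ := (h x).2.2.1
  rw [hφ]
  exact instF_open φ

theorem closed_hard {L : Set (List Bool)} (hL : InER L) : ∃ f : List Bool → Inst,
    Nonempty (TM2ComputableInPolyTime (id : List Bool → List Bool) encInst f) ∧
    ∀ x, (f x).Valid ∧ (f x).AllClosed ∧ (f x).Proper ∧ (x ∈ L ↔ (f x).Yes) ∧
      (x ∈ L ↔ ∃ P, (f x).Plain P) := by
  obtain ⟨f, hf, h⟩ := reduction false hL
  refine ⟨f, hf, fun x => ⟨(h x).1, ?_, (h x).2.1, (h x).2.2.2⟩⟩
  obtain ⟨φ, hφ⟩ := (h x).2.2.1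
  rw [hφ]
  exact instF_closed φ

end Pool.Agent.H77.SH
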