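import Pool.Agent.H77.SG.Problem

/-!
# Drawings without a prescribed embedding, and proper segments
-/

set_option autoImplicit false

namespace Pool.Agent.H77.SG

/-- The conditions of `Inst.Drawing`, except that no embedding is prescribed: the condition on the
cyclic orders of the neighbours is left out. -/
structure Inst.Plain (I : Inst) (P : ℕ → ℝ × ℝ) : Prop where
  onSeg : ∀ v s r, I.Has v s r → P v ∈ s.pts
  inj : ∀ u v, I.IsV u → I.IsV v → P u = P v → u = v
  vertexEdge : ∀ u v w, I.Nb u v → I.IsV w → P w ∈ segment ℝ (P u) (P v) → w = u ∨ w = v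
  edgeEdge : ∀ u v x y, I.Nb u v → I.Nb x y → ¬ (u = x ∧ v = y) → ¬ (u = y ∧ v = x) →
    ∀ z ∈ segment ℝ (P u) (P v), z ∈ segment ℝ (P x) (P y) →
      ∃ w, (w = u ∨ w = v) ∧ (w = x ∨ w = y) ∧ z = P w
  obstacle : ∀ u v, I.Nb u v → ∀ s ∈ I.obst, Disjoint (segment ℝ (P u) (P v)) s.pts

/-- No segment of the instance is degenerate: the two end points are always distinct. -/
def Inst.Proper (I : Inst) : Prop :=
  (∀ v s r, I.Has v s r → s.a ≠ s.b) ∧ ∀ s ∈ I.obst, s.a ≠ s.b

end Pool.Agent.H77.SG
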